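import Mathlib

set_option autoImplicit false

namespace Pool.Agent.X260.Ger

open MulAction

section Hall

variable {α : Type} {X : Type} [MulAction (FreeGroup α) X]

/-- the letter `(x,b)` as an element of the free group -/
def let' (l : α × Bool) : FreeGroup α := FreeGroup.mk [l]

lemma mk_cons (l : α × Bool) (L : List (α × Bool)) :
    (FreeGroup.mk (l :: L) : FreeGroup α) = let' l * FreeGroup.mk L := by
  rw [let', FreeGroup.mul_mk]; rfl

lemma let'_true (x : α) : let' (x, true) = FreeGroup.of x := rfl
lemma let'_false (x : α) : let' (x, false) = (FreeGroup.of x)⁻¹ := by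
  rw [let', FreeGroup.of, FreeGroup.inv_mk]; rfl

variable (P : Set X)

/-- the partial bijection of `P` given by a generator -/
def pe (x : α) : {p : P // FreeGroup.of x • (p : X) ∈ P} ≃ {p : P // (FreeGroup.of x)⁻¹ • (p : X) ∈ P} where
  toFun p := ⟨⟨FreeGroup.of x • (p.1 : X), p.2⟩, by simp⟩
  invFun p := ⟨⟨(FreeGroup.of x)⁻¹ • (p.1 : X), p.2⟩, by simp⟩
  left_inv p := by ext; simp
  right_inv p := by ext; simp

open Classical in
/-- completed permutations -/
noncomputable def cp [Finite P] (x : α) : Equiv.Perm P := by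
  haveI := Fintype.ofFinite P
  exact (pe P x).extendSubtype

open Classical in
lemma cp_apply [Finite P] (x : α) (p : P) (h : FreeGroup.of x • (p : X) ∈ P) :
    cp P x p = ⟨FreeGroup.of x • (p : X), h⟩ := by
  unfold cp
  rw [Equiv.extendSubtype_apply_of_mem (pe P x) p h]
  rfl

noncomputable def ph [Finite P] : FreeGroup α →* Equiv.Perm P := FreeGroup.lift (cp P)

lemma ph_letter [Finite P] (l : α × Bool) (p : P) (h : let' l • (p : X) ∈ P) :
    ph P (let' l) p = ⟨let' l • (p : X), h⟩ := by
  obtain ⟨x, b⟩ := l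
  cases b with
  | true =>
    simp only [let'_true] at h ⊢
    simp only [ph, FreeGroup.lift_apply_of]
    exact cp_apply P x p h
  | false =>
    simp only [let'_false] at h ⊢
    simp only [ph, map_inv, FreeGroup.lift_apply_of]
    rw [Equiv.Perm.inv_eq_iff_eq]
    rw [cp_apply P x _ (by simp)]
    ext
    simp

lemma ph_word [Finite P] (o : P) (L : List (α × Bool))
    (h : ∀ L', L' <:+ L → FreeGroup.mk L' • (o : X) ∈ P) :
    ((ph P (FreeGroup.mk L) o : P) : X) = FreeGroup.mk L • (o : X) := by
  induction L with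
  | nil => 
    have : (FreeGroup.mk [] : FreeGroup α) = 1 := rfl
    rw [this]; simp
  | cons l L ih =>
    have ih' := ih (fun L' hL' => h L' (hL'.trans (List.suffix_cons l L)))
    rw [mk_cons, map_mul, Equiv.Perm.mul_apply, mul_smul]
    have h1 : let' l • ((ph P (FreeGroup.mk L) o : P) : X) ∈ P := by
      rw [ih', ← mul_smul, ← mk_cons]
      exact h _ List.suffix_rfl
    rw [ph_letter P l _ h1]
    change let' l • ((ph P (FreeGroup.mk L) o : P) : X) = _
    rw [ih']

end Hall

/-- M. Hall: cyclic subgroups of free groups are separable (permutational form). -/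
theorem hall {α : Type} (g h : FreeGroup α) (hh : h ∉ Subgroup.zpowers g) :
    ∃ (P : Type) (_ : Finite P) (π : FreeGroup α →* Equiv.Perm P) (o : P),
      π g o = o ∧ π h o ≠ o := by
  classical
  let X := FreeGroup α ⧸ Subgroup.zpowers g
  let o' : X := ((1 : FreeGroup α) : X)
  let S : Set X := {x | (∃ L', L' <:+ g.toWord ∧ FreeGroup.mk L' • o' = x) ∨
    (∃ L', L' <:+ h.toWord ∧ FreeGroup.mk L' • o' = x)}
  have hfin : S.Finite := by
    have h1 : S = ((fun L' : List (α × Bool) => FreeGroup.mk L' • o') '' {L' | L' <:+ g.toWord}) ∪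
        ((fun L' : List (α × Bool) => FreeGroup.mk L' • o') '' {L' | L' <:+ h.toWord}) := by
      ext x; simp [S]
    rw [h1]
    have h2 : ∀ L : List (α × Bool), {L' | L' <:+ L}.Finite := by
      intro L
      refine Set.Finite.subset (L.tails.toFinset.finite_toSet) ?_
      intro L' hL'
      simpa using hL'
    exact ((h2 _).image _).union ((h2 _).image _)
  have : Finite S := hfin
  have ho : o' ∈ S := Or.inl ⟨[], List.nil_suffix, by
    have : (FreeGroup.mk [] : FreeGroup α) = 1 := rfl
    rw [this, one_smul]⟩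
  refine ⟨S, inferInstance, ph S, ⟨o', ho⟩, ?_, ?_⟩
  · apply Subtype.ext
    have h1 := ph_word S ⟨o', ho⟩ g.toWord (fun L' hL' => Or.inl ⟨L', hL', rfl⟩)
    rw [FreeGroup.mk_toWord] at h1
    rw [h1]
    change g • ((1 : FreeGroup α) : X) = ((1 : FreeGroup α) : X)
    rw [MulAction.Quotient.smul_coe, smul_eq_mul, mul_one, QuotientGroup.eq]
    simp
  · intro h0
    have h1 := ph_word S ⟨o', ho⟩ h.toWord (fun L' hL' => Or.inr ⟨L', hL', rfl⟩)
    rw [FreeGroup.mk_toWord] at h1
    rw [h0] at h1
    change ((1 : FreeGroup α) : X) = h • ((1 : FreeGroup α) : X) at h1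
    rw [MulAction.Quotient.smul_coe, smul_eq_mul, mul_one, QuotientGroup.eq] at h1
    simp at h1
    exact hh h1

end Pool.Agent.X260.Ger
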