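import Mathlib
import Pool.Agent.X260.Ger.Hall

set_option autoImplicit false

namespace Pool.Agent.X260.Ger

open SemidirectProduct

section Css

variable {α : Type} (φ : Multiplicative ℤ →* MulAut (FreeGroup α))

abbrev Om (α P : Type) : Type := (FreeGroup α →* Equiv.Perm P) × P

instance finOm (α P : Type) [Finite α] [Finite P] : Finite (Om α P) := by
  classical
  have : Finite (FreeGroup α →* Equiv.Perm P) :=
    Finite.of_equiv (α → Equiv.Perm P) FreeGroup.lift
  infer_instance

/-- the action on pairs (homomorphism, point) -/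
@[reducible] def act (P : Type) : MulAction (FreeGroup α ⋊[φ] Multiplicative ℤ) (Om α P) where
  smul x q := (q.1.comp (φ x.right⁻¹).toMonoidHom, q.1 (φ x.right⁻¹ x.left) q.2)
  one_smul q := by
    change (q.1.comp (φ (1 : FreeGroup α ⋊[φ] Multiplicative ℤ).right⁻¹).toMonoidHom,
      q.1 (φ (1 : FreeGroup α ⋊[φ] Multiplicative ℤ).right⁻¹
        (1 : FreeGroup α ⋊[φ] Multiplicative ℤ).left) q.2) = q
    refine Prod.ext ?_ ?_
    · ext f : 1
      simp
    · simp
  mul_smul x y q := by
    change (q.1.comp (φ (x * y).right⁻¹).toMonoidHom, q.1 (φ (x * y).right⁻¹ (x * y).left) q.2) =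
      ((q.1.comp (φ y.right⁻¹).toMonoidHom).comp (φ x.right⁻¹).toMonoidHom,
        (q.1.comp (φ y.right⁻¹).toMonoidHom) (φ x.right⁻¹ x.left) (q.1 (φ y.right⁻¹ y.left) q.2))
    refine Prod.ext ?_ ?_
    · apply MonoidHom.ext
      intro f
      simp only [MonoidHom.comp_apply, MulEquiv.toMonoidHom_eq_coe, MonoidHom.coe_coe,
        SemidirectProduct.mul_right, mul_inv_rev, map_mul, MulAut.mul_apply]
    · simp only [MonoidHom.comp_apply, MulEquiv.toMonoidHom_eq_coe, MonoidHom.coe_coe,
        SemidirectProduct.mul_right, SemidirectProduct.mul_left, mul_inv_rev, map_mul,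
        MulAut.mul_apply, Equiv.Perm.mul_apply]
      congr 3
      rw [← MulAut.mul_apply _ (φ x.right⁻¹) (φ x.right), ← map_mul, inv_mul_cancel, map_one,
        MulAut.one_apply]

/-- the permutation representation -/
def kap (P : Type) : (FreeGroup α ⋊[φ] Multiplicative ℤ) →* Equiv.Perm (Om α P) :=
  letI := act φ P
  MulAction.toPermHom _ _

lemma kap_inl (P : Type) (f : FreeGroup α) (π : FreeGroup α →* Equiv.Perm P) (o : P) :
    kap φ P (inl f) (π, o) = (π, π f o) := by
  change (π.comp (φ (inl f : FreeGroup α ⋊[φ] Multiplicative ℤ).right⁻¹).toMonoidHom,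
    π (φ (inl f : FreeGroup α ⋊[φ] Multiplicative ℤ).right⁻¹
      (inl f : FreeGroup α ⋊[φ] Multiplicative ℤ).left) o) = _
  refine Prod.ext ?_ ?_
  · ext f : 1
    simp
  · simp

/-- reduction of the exponent -/
def rho (n : ℕ) : (FreeGroup α ⋊[φ] Multiplicative ℤ) →* Multiplicative (ZMod n) :=
  (AddMonoidHom.toMultiplicative (Int.castAddHom (ZMod n))).comp rightHom

lemma rho_apply (n : ℕ) (x : FreeGroup α ⋊[φ] Multiplicative ℤ) :
    rho φ n x = Multiplicative.ofAdd ((Multiplicative.toAdd x.right : ℤ) : ZMod n) := rfl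

lemma rho_eq_one (n : ℕ) (x : FreeGroup α ⋊[φ] Multiplicative ℤ) :
    rho φ n x = 1 ↔ (n : ℤ) ∣ Multiplicative.toAdd x.right := by
  rw [rho_apply, ← ofAdd_zero, Multiplicative.ofAdd.injective.eq_iff,
    ZMod.intCast_zmod_eq_zero_iff_dvd]

lemma sep_of {G Q : Type} [Group G] [Group Q] [Finite Q] (Φ : G →* Q) (S : Subgroup Q) {g h : G}
    (hg : Φ g ∈ S) (hh : Φ h ∉ S) :
    ∃ K : Subgroup G, K.FiniteIndex ∧ Subgroup.zpowers g ≤ K ∧ h ∉ K := by
  refine ⟨S.comap Φ, ?_, ?_, hh⟩
  · have h1 : Φ.ker ≤ S.comap Φ := by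
      intro x hx
      rw [Subgroup.mem_comap, (MonoidHom.mem_ker).1 hx]
      exact S.one_mem
    have h2 : Φ.ker.FiniteIndex := inferInstance
    exact Subgroup.finiteIndex_of_le h1
  · rw [Subgroup.zpowers_le]
    exact hg

/-- (finitely generated free)-by-(infinite cyclic) groups are cyclic subgroup separable -/
theorem css [Finite α] (g h : FreeGroup α ⋊[φ] Multiplicative ℤ) (hh : h ∉ Subgroup.zpowers g) :
    ∃ K : Subgroup (FreeGroup α ⋊[φ] Multiplicative ℤ), K.FiniteIndex ∧ Subgroup.zpowers g ≤ K ∧
      h ∉ K := by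
  classical
  by_cases hg : g.right = 1
  · have hgi : g = inl g.left := by
      refine SemidirectProduct.ext ?_ ?_
      · simp
      · simpa using hg
    by_cases hhr : h.right = 1
    · have hhi : h = inl h.left := by
        refine SemidirectProduct.ext ?_ ?_
        · simp
        · simpa using hhr
      have h0 : h.left ∉ Subgroup.zpowers g.left := by
        intro hm
        apply hh
        obtain ⟨k, hk⟩ := Subgroup.mem_zpowers_iff.1 hm
        refine Subgroup.mem_zpowers_iff.2 ⟨k, ?_⟩
        rw [hgi, hhi, ← map_zpow, hk]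
      obtain ⟨P, hP, π, o, h1, h2⟩ := hall g.left h.left h0
      refine sep_of (kap φ P) (MulAction.stabilizer (Equiv.Perm (Om α P)) ((π, o) : Om α P)) ?_ ?_
      · rw [MulAction.mem_stabilizer_iff, hgi, Equiv.Perm.smul_def, kap_inl, h1]
      · rw [MulAction.mem_stabilizer_iff, hhi, Equiv.Perm.smul_def, kap_inl]
        intro h3
        exact h2 (Prod.ext_iff.1 h3).2
    · have hne : (Multiplicative.toAdd h.right) ≠ 0 := by
        intro h0
        apply hhr
        exact Multiplicative.toAdd.injective h0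
      have : NeZero (2 * (Multiplicative.toAdd h.right).natAbs) := ⟨by
        have := Int.natAbs_ne_zero.2 hne
        omega⟩
      refine sep_of (rho φ (2 * (Multiplicative.toAdd h.right).natAbs)) ⊥ ?_ ?_
      · rw [Subgroup.mem_bot, rho_eq_one, hg]
        simp
      · rw [Subgroup.mem_bot, rho_eq_one]
        rintro ⟨c, hc⟩
        have h1 := congrArg Int.natAbs hc
        rw [Int.natAbs_mul] at h1
        simp only [Int.natAbs_natCast] at h1
        have h2 := Int.natAbs_ne_zero.2 hne
        rcases Nat.eq_zero_or_pos c.natAbs with h3 | h3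
        · rw [h3] at h1; omega
        · nlinarith [Nat.pos_of_ne_zero h2]
  · set p : ℤ := Multiplicative.toAdd g.right with hp
    set q : ℤ := Multiplicative.toAdd h.right with hq
    have hp0 : p ≠ 0 := by
      intro h0
      exact hg (Multiplicative.toAdd.injective h0)
    have hpn : p.natAbs ≠ 0 := Int.natAbs_ne_zero.2 hp0
    by_cases hd : p ∣ q
    · obtain ⟨j, hj⟩ := hd
      have hgr : ∀ i : ℤ, Multiplicative.toAdd (g ^ i).right = i * p := by
        intro i
        have : (g ^ i).right = g.right ^ i := by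
          change rightHom (g ^ i) = _
          rw [map_zpow]; rfl
        rw [this, toAdd_zpow, ← hp, smul_eq_mul]
      have hxr : (h * (g ^ j)⁻¹).right = 1 := by
        apply Multiplicative.toAdd.injective
        rw [SemidirectProduct.mul_right, SemidirectProduct.inv_right, toAdd_mul, toAdd_inv, hgr,
          ← hq, hj]
        simp [mul_comm]
      set x0 := (h * (g ^ j)⁻¹).left with hx0
      have hx : h * (g ^ j)⁻¹ = inl x0 := by
        refine SemidirectProduct.ext ?_ ?_
        · simp [hx0]
        · simpa using hxr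
      have hx1 : x0 ∉ Subgroup.zpowers (1 : FreeGroup α) := by
        intro h1
        rw [Subgroup.zpowers_one_eq_bot, Subgroup.mem_bot] at h1
        rw [h1, map_one, mul_inv_eq_one] at hx
        exact hh (Subgroup.mem_zpowers_iff.2 ⟨j, hx.symm⟩)
      obtain ⟨P, hP, π, o, h1, h2⟩ := hall 1 x0 hx1
      have hfin : Finite (Equiv.Perm (Om α P)) := inferInstance
      set e := orderOf (kap φ P g) with he
      have he0 : 0 < e := orderOf_pos _
      have : NeZero (p.natAbs * e) := ⟨Nat.mul_ne_zero hpn he0.ne'⟩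
      refine sep_of ((kap φ P).prod (rho φ (p.natAbs * e)))
        (Subgroup.zpowers (((kap φ P).prod (rho φ (p.natAbs * e))) g))
        (Subgroup.mem_zpowers _) ?_
      intro hm
      obtain ⟨i, hi⟩ := Subgroup.mem_zpowers_iff.1 hm
      rw [← map_zpow] at hi
      have h3 : kap φ P (g ^ i) = kap φ P h := (Prod.ext_iff.1 hi).1
      have h4 : rho φ (p.natAbs * e) (g ^ i) = rho φ (p.natAbs * e) h := (Prod.ext_iff.1 hi).2
      have h5 : rho φ (p.natAbs * e) (h * (g ^ i)⁻¹) = 1 := by
        rw [map_mul, map_inv, h4, mul_inv_cancel]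
      rw [rho_eq_one, SemidirectProduct.mul_right, SemidirectProduct.inv_right, toAdd_mul,
        toAdd_inv, hgr, ← hq, hj] at h5
      have h6 : (e : ℤ) ∣ (j - i) := by
        have h7 : (((p.natAbs * e : ℕ) : ℤ)) ∣ p * (j - i) := by
          have : p * j + -(i * p) = p * (j - i) := by ring
          rwa [this] at h5
        rw [Nat.cast_mul] at h7
        have h8 : p * (e : ℤ) ∣ p * (j - i) := by
          rcases Int.natAbs_eq p with h9 | h9
          · rw [← h9] at h7; exact h7
          · have : ((p.natAbs : ℕ) : ℤ) = -p := by omega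
            rw [this] at h7
            have h10 : -(p * (e : ℤ)) ∣ p * (j - i) := by
              rwa [← neg_mul]
            exact (neg_dvd).1 h10
        exact (mul_dvd_mul_iff_left hp0).1 h8
      have h7 : kap φ P (g ^ i) = kap φ P (g ^ j) := by
        obtain ⟨c, hc⟩ := h6
        have : j = i + e * c := by omega
        rw [this, zpow_add, map_mul, zpow_mul, map_zpow (kap φ P) (g ^ (e : ℤ)), zpow_natCast,
          map_pow, he, pow_orderOf_eq_one, one_zpow, mul_one]
      have h8 : kap φ P (inl x0) = 1 := by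
        rw [← hx, map_mul, map_inv, ← h3, h7, mul_inv_cancel]
      have h9 := kap_inl φ P x0 π o
      rw [h8] at h9
      exact h2 (Prod.ext_iff.1 h9).2.symm
    · have : NeZero p.natAbs := ⟨hpn⟩
      refine sep_of (rho φ p.natAbs) ⊥ ?_ ?_
      · rw [Subgroup.mem_bot, rho_eq_one, ← hp]
        exact Int.natAbs_dvd.2 dvd_rfl
      · rw [Subgroup.mem_bot, rho_eq_one, ← hq]
        intro h1
        exact hd (Int.natAbs_dvd.1 h1)

end Css

end Pool.Agent.X260.Ger
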