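import Mathlib
import Pool.Agent.X260.Ger.Css
import Pool.Agent.Helper270.HNN

set_option autoImplicit false

namespace Pool.Agent.X260.Ger

open SemidirectProduct

abbrev F : Type := FreeGroup (Fin 3)

abbrev a : F := FreeGroup.of 0

/-- the monodromy `a ↦ a`, `b ↦ b a`, `c ↦ c a²` -/
def thf : F →* F := FreeGroup.lift ![a, FreeGroup.of 1 * a, FreeGroup.of 2 * a ^ 2]

def thb : F →* F := FreeGroup.lift ![a, FreeGroup.of 1 * a⁻¹, FreeGroup.of 2 * (a⁻¹) ^ 2]

lemma thf_of (s : Fin 3) : thf (FreeGroup.of s) = ![a, FreeGroup.of 1 * a, FreeGroup.of 2 * a ^ 2] s := by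
  simp [thf]

lemma thb_of (s : Fin 3) : thb (FreeGroup.of s) = ![a, FreeGroup.of 1 * a⁻¹, FreeGroup.of 2 * (a⁻¹) ^ 2] s := by
  simp [thb]

lemma thf_a : thf a = a := by rw [thf_of]; rfl
lemma thb_a : thb a = a := by rw [thb_of]; rfl
lemma thf_b : thf (FreeGroup.of 1) = FreeGroup.of 1 * a := by rw [thf_of]; rfl
lemma thb_b : thb (FreeGroup.of 1) = FreeGroup.of 1 * a⁻¹ := by rw [thb_of]; rfl
lemma thf_c : thf (FreeGroup.of 2) = FreeGroup.of 2 * a ^ 2 := by rw [thf_of]; rfl
lemma thb_c : thb (FreeGroup.of 2) = FreeGroup.of 2 * (a⁻¹) ^ 2 := by rw [thb_of]; rfl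

def th : MulAut F := MonoidHom.toMulEquiv thf thb
  (by
    ext s
    fin_cases s
    · change thb (thf a) = a
      rw [thf_a, thb_a]
    · change thb (thf (FreeGroup.of 1)) = FreeGroup.of 1
      rw [thf_b, map_mul, thb_b, thb_a]; group
    · change thb (thf (FreeGroup.of 2)) = FreeGroup.of 2
      rw [thf_c, map_mul, thb_c, map_pow, thb_a]; group)
  (by
    ext s
    fin_cases s
    · change thf (thb a) = a
      rw [thb_a, thf_a]
    · change thf (thb (FreeGroup.of 1)) = FreeGroup.of 1
      rw [thb_b, map_mul, thf_b, map_inv, thf_a]; group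
    · change thf (thb (FreeGroup.of 2)) = FreeGroup.of 2
      rw [thb_c, map_mul, thf_c, map_pow, map_inv, thf_a]; group)

lemma th_apply (x : F) : th x = thf x := rfl
lemma th_symm_apply (x : F) : th⁻¹ x = thb x := rfl

def phi : Multiplicative ℤ →* MulAut F := zpowersHom (MulAut F) th

lemma phi_apply (k : Multiplicative ℤ) : phi k = th ^ (Multiplicative.toAdd k) := rfl

lemma zpow_a (k : ℤ) : (th ^ k) a = a := by
  induction k using Int.induction_on with
  | zero => simp
  | succ k ih => rw [zpow_add_one, MulAut.mul_apply, th_apply, thf_a, ih]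
  | pred k ih => rw [zpow_sub_one, MulAut.mul_apply, th_symm_apply, thb_a, ih]

lemma phi_a (k : Multiplicative ℤ) : phi k a = a := zpow_a _

/-- exponents -/
def ex : Fin 3 → ℤ := ![0, 1, 2]

lemma zpow_of (k : ℤ) (s : Fin 3) : (th ^ k) (FreeGroup.of s) = FreeGroup.of s * a ^ (k * ex s) := by
  fin_cases s
  · change (th ^ k) a = a * a ^ (k * 0)
    rw [zpow_a]; simp
  · change (th ^ k) (FreeGroup.of 1) = FreeGroup.of 1 * a ^ (k * 1)
    induction k using Int.induction_on with
    | zero => simp
    | succ k ih =>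
      rw [zpow_add_one, MulAut.mul_apply, th_apply, thf_b, map_mul, ih, zpow_a, mul_assoc,
        ← zpow_add_one]
      congr 2 <;> ring
    | pred k ih =>
      rw [zpow_sub_one, MulAut.mul_apply, th_symm_apply, thb_b, map_mul, ih, map_inv, zpow_a,
        mul_assoc, ← zpow_sub_one]
      congr 2 <;> ring
  · change (th ^ k) (FreeGroup.of 2) = FreeGroup.of 2 * a ^ (k * 2)
    induction k using Int.induction_on with
    | zero => simp
    | succ k ih =>
      rw [zpow_add_one, MulAut.mul_apply, th_apply, thf_c, map_mul, ih, map_pow, zpow_a, mul_assoc,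
        ← zpow_natCast, ← zpow_add]
      congr 2; push_cast; ring
    | pred k ih =>
      rw [zpow_sub_one, MulAut.mul_apply, th_symm_apply, thb_c, map_mul, ih, map_pow, map_inv, zpow_a,
        mul_assoc, ← zpow_natCast, inv_zpow', ← zpow_add]
      congr 2; push_cast; ring

lemma phi_of (k : Multiplicative ℤ) (s : Fin 3) :
    phi k (FreeGroup.of s) = FreeGroup.of s * a ^ (Multiplicative.toAdd k * ex s) := zpow_of _ s

/-- Gersten's group -/
abbrev G : Type := F ⋊[phi] Multiplicative ℤ

/-- the parametrisation of the vertex group `⟨a, t⟩` -/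
def psi : Multiplicative (Fin 2 → ℤ) →* G where
  toFun v := ⟨a ^ (Multiplicative.toAdd v 0), Multiplicative.ofAdd (Multiplicative.toAdd v 1)⟩
  map_one' := by
    refine SemidirectProduct.ext ?_ ?_
    · exact zpow_zero a
    · rfl
  map_mul' v w := by
    refine SemidirectProduct.ext ?_ ?_
    · rw [mul_left]
      change a ^ (Multiplicative.toAdd v 0 + Multiplicative.toAdd w 0) =
        a ^ (Multiplicative.toAdd v 0) * phi _ (a ^ (Multiplicative.toAdd w 0))
      rw [map_zpow, phi_a, zpow_add]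
    · rfl

lemma psi_left (v : Multiplicative (Fin 2 → ℤ)) : (psi v).left = a ^ (Multiplicative.toAdd v 0) := rfl

lemma psi_right (v : Multiplicative (Fin 2 → ℤ)) :
    (psi v).right = Multiplicative.ofAdd (Multiplicative.toAdd v 1) := rfl

lemma a_zpow_inj {i j : ℤ} (h : a ^ i = a ^ j) : i = j := by
  have h1 := congrArg (FreeGroup.lift (fun _ : Fin 3 => Multiplicative.ofAdd (1 : ℤ))) h
  rw [map_zpow, map_zpow, FreeGroup.lift_apply_of, ← ofAdd_zsmul, ← ofAdd_zsmul] at h1
  simpa using Multiplicative.ofAdd.injective h1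

lemma psi_injective : Function.Injective psi := by
  intro v w h
  have h0 := congrArg SemidirectProduct.left h
  have h1 := congrArg SemidirectProduct.right h
  rw [psi_left, psi_left] at h0
  rw [psi_right, psi_right] at h1
  have h2 := a_zpow_inj h0
  have h3 := Multiplicative.ofAdd.injective h1
  apply Multiplicative.toAdd.injective
  funext i
  fin_cases i
  · exact h2
  · exact h3

/-- the vertex group -/
def H : Subgroup G := psi.range

lemma mem_H {x : G} : x ∈ H ↔ x.left ∈ Subgroup.zpowers a := by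
  constructor
  · rintro ⟨v, rfl⟩
    rw [psi_left]
    exact Subgroup.mem_zpowers_iff.2 ⟨_, rfl⟩
  · intro h
    obtain ⟨i, hi⟩ := Subgroup.mem_zpowers_iff.1 h
    refine ⟨Multiplicative.ofAdd ![i, Multiplicative.toAdd x.right], ?_⟩
    refine SemidirectProduct.ext ?_ ?_
    · rw [psi_left, ← hi]; rfl
    · rw [psi_right]; rfl

noncomputable def HEquiv : H ≃* Multiplicative (Fin 2 → ℤ) := (MonoidHom.ofInjective psi_injective).symm

/-- the height homomorphism: exponent sum in `b, c` -/
def hF : F →* Multiplicative ℤ := FreeGroup.lift ![1, Multiplicative.ofAdd 1, Multiplicative.ofAdd 1]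

lemma hF_a : hF a = 1 := by simp [hF]
lemma hF_of {s : Fin 3} (hs : s ≠ 0) : hF (FreeGroup.of s) = Multiplicative.ofAdd 1 := by
  fin_cases s
  · exact absurd rfl hs
  · simp [hF]
  · simp [hF]

lemma hF_phi (k : Multiplicative ℤ) (x : F) : hF (phi k x) = hF x := by
  have : hF.comp (phi k).toMonoidHom = hF := by
    apply FreeGroup.ext_hom
    intro s
    change hF (phi k (FreeGroup.of s)) = hF (FreeGroup.of s)
    rw [phi_of, map_mul, map_zpow, hF_a, one_zpow, mul_one]
  exact DFunLike.congr_fun this x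

def hG : G →* Multiplicative ℤ where
  toFun x := hF x.left
  map_one' := by simp
  map_mul' x y := by rw [mul_left, map_mul, hF_phi]

lemma hG_apply (x : G) : hG x = hF x.left := rfl

lemma hG_H {x : G} (h : x ∈ H) : hG x = 1 := by
  obtain ⟨i, hi⟩ := Subgroup.mem_zpowers_iff.1 (mem_H.1 h)
  rw [hG_apply, ← hi, map_zpow, hF_a, one_zpow]

lemma hG_inl_of {s : Fin 3} (hs : s ≠ 0) : hG (inl (FreeGroup.of s)) = Multiplicative.ofAdd 1 := by
  rw [hG_apply, left_inl, hF_of hs]

open ModularGroup in
lemma conj_a {s : Fin 3} (hs : s ≠ 0) {i j : ℤ} (h : (FreeGroup.of s)⁻¹ * a ^ i * FreeGroup.of s = a ^ j) :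
    i = 0 := by
  have h1 := congrArg (FreeGroup.lift (fun x : Fin 3 => if x = 0 then T else S)) h
  rw [map_mul, map_mul, map_inv, map_zpow, map_zpow, FreeGroup.lift_apply_of,
    FreeGroup.lift_apply_of, if_neg hs, if_pos rfl] at h1
  have h2 := congrArg (fun M : Matrix.SpecialLinearGroup (Fin 2) ℤ => (M : Matrix (Fin 2) (Fin 2) ℤ) 1 0) h1
  simp only [Matrix.SpecialLinearGroup.coe_mul, coe_T_zpow, coe_S, Matrix.SpecialLinearGroup.coe_inv,
    Matrix.adjugate_fin_two] at h2
  simpa [Matrix.mul_apply, Fin.sum_univ_two] using h2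

end Pool.Agent.X260.Ger
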