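import Mathlib
import Pool.Agent.X260.Ger.Gp

set_option autoImplicit false

namespace Pool.Agent.X260.Ger

open SemidirectProduct

/-- letters `a^{±1}` -/
def isA (l : Fin 3 × Bool) : Bool := decide (l.1 = 0)

lemma tw (l : Fin 3 × Bool) (u : F) : (let' l * u).toWord =
    match u.toWord with
    | [] => [l]
    | hd :: tl => if l.1 = hd.1 ∧ l.2 = !hd.2 then tl else l :: hd :: tl := by
  have h1 : let' l * u = FreeGroup.mk (l :: u.toWord) := by
    rw [mk_cons, FreeGroup.mk_toWord]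
  rw [h1, FreeGroup.toWord_mk, FreeGroup.reduce.cons, FreeGroup.reduce_toWord]
  cases u.toWord with
  | nil => rfl
  | cons hd tl => rfl

/-- normal form of the coset `f⟨a⟩` -/
def nfF (f : F) : List (Fin 3 × Bool) := (f⁻¹).toWord.dropWhile isA

lemma nf_aux (b : Bool) (u : F) :
    (let' (0, b) * u).toWord.dropWhile isA = u.toWord.dropWhile isA := by
  rw [tw]
  cases hu : u.toWord with
  | nil => simp [isA]
  | cons hd tl =>
    simp only
    split_ifs with h
    · have : isA hd = true := by simp [isA, ← h.1]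
      rw [List.dropWhile_cons_of_pos this]
    · rw [List.dropWhile_cons_of_pos (by simp [isA])]

lemma nfF_mul_a (f : F) : nfF (f * a) = nfF f := by
  unfold nfF
  rw [mul_inv_rev, ← let'_false, nf_aux]

lemma nfF_mul_zpow (f : F) (i : ℤ) : nfF (f * a ^ i) = nfF f := by
  induction i using Int.induction_on with
  | zero => simp
  | succ k ih => rw [zpow_add_one, ← mul_assoc, nfF_mul_a, ih]
  | pred k ih =>
    rw [← ih]
    have := nfF_mul_a (f * a ^ (-(k : ℤ) - 1))
    rw [mul_assoc, ← zpow_add_one, sub_add_cancel] at this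
    exact this.symm

/-- vertices of the Bass–Serre tree -/
abbrev V : Type := G ⧸ H

lemma mk_eq_iff {g h : G} : (g : V) = (h : V) ↔ g⁻¹ * h ∈ H := QuotientGroup.eq

lemma mk_mul {g x : G} (hx : x ∈ H) : ((g * x : G) : V) = (g : V) := by
  rw [eq_comm, mk_eq_iff]; simpa using hx

lemma inr_mem (k : Multiplicative ℤ) : (inr k : G) ∈ H := by
  rw [mem_H, left_inr]; exact Subgroup.one_mem _

lemma inl_a_mem (i : ℤ) : (inl (a ^ i) : G) ∈ H := by
  rw [mem_H, left_inl]; exact Subgroup.mem_zpowers_iff.2 ⟨i, rfl⟩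

lemma mk_left (g : G) : ((inl g.left : G) : V) = (g : V) := by
  conv_rhs => rw [← SemidirectProduct.inl_left_mul_inr_right g]
  rw [mk_mul (inr_mem _)]

lemma mk_inl_mul (f : F) (i : ℤ) : ((inl (f * a ^ i) : G) : V) = ((inl f : G) : V) := by
  rw [map_mul, mk_mul (inl_a_mem i)]

lemma mk_step (g : G) (s : Fin 3) :
    ((g * inl (FreeGroup.of s) : G) : V) = ((inl (g.left * FreeGroup.of s) : G) : V) := by
  rw [← mk_left, mul_left, left_inl, phi_of, ← mul_assoc, mk_inl_mul]

def nf : V → List (Fin 3 × Bool) := Quotient.lift (fun g : G => nfF g.left) (by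
  intro g h hgh
  have h1 : g⁻¹ * h ∈ H := QuotientGroup.leftRel_apply.1 hgh
  obtain ⟨i, hi⟩ := Subgroup.mem_zpowers_iff.1 (mem_H.1 h1)
  have h2 : h.left = g.left * a ^ i := by
    have h3 : h = g * (g⁻¹ * h) := by group
    conv_lhs => rw [h3]
    rw [mul_left, ← hi, map_zpow, phi_a]
  change nfF g.left = nfF h.left
  rw [h2, nfF_mul_zpow])

lemma nf_mk (g : G) : nf (g : V) = nfF g.left := rfl

lemma mk_nf_aux (L : List (Fin 3 × Bool)) : FreeGroup.mk (L.takeWhile isA) ∈ Subgroup.zpowers a := by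
  induction L with
  | nil => exact Subgroup.one_mem _
  | cons l L ih =>
    by_cases h : isA l = true
    · rw [List.takeWhile_cons_of_pos h, mk_cons]
      refine Subgroup.mul_mem _ ?_ ih
      obtain ⟨x, b⟩ := l
      have hx : x = 0 := by simpa [isA] using h
      subst hx
      cases b with
      | true => rw [let'_true]; exact Subgroup.mem_zpowers a
      | false => rw [let'_false]; exact Subgroup.inv_mem _ (Subgroup.mem_zpowers a)
    · rw [List.takeWhile_cons_of_neg h]
      exact Subgroup.one_mem _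

/-- the vertex with given word -/
def wv (L : List (Fin 3 × Bool)) : V := ((inl (FreeGroup.mk L)⁻¹ : G) : V)

lemma wv_nfF (f : F) : wv (nfF f) = ((inl f : G) : V) := by
  have h1 : f⁻¹ = FreeGroup.mk ((f⁻¹).toWord.takeWhile isA) * FreeGroup.mk (nfF f) := by
    rw [nfF, FreeGroup.mul_mk, List.takeWhile_append_dropWhile, FreeGroup.mk_toWord]
  obtain ⟨i, hi⟩ := Subgroup.mem_zpowers_iff.1 (mk_nf_aux (f⁻¹).toWord)
  rw [← hi] at h1
  have h2 : f = (FreeGroup.mk (nfF f))⁻¹ * a ^ (-i) := by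
    rw [zpow_neg, ← mul_inv_rev, ← h1, inv_inv]
  conv_rhs => rw [h2]
  rw [mk_inl_mul]; rfl

lemma wv_nf (v : V) : wv (nf v) = v := by
  obtain ⟨g, rfl⟩ := QuotientGroup.mk_surjective v
  rw [nf_mk, wv_nfF, mk_left]

/-- base vertex -/
def o : V := ((1 : G) : V)

lemma nf_o : nf o = [] := by
  change nfF (1 : G).left = []
  simp [nfF]

lemma nf_ne {v : V} (h : v ≠ o) : nf v ≠ [] := by
  intro h0
  apply h
  rw [← wv_nf v, h0]
  change ((inl (FreeGroup.mk [])⁻¹ : G) : V) = o
  have : (FreeGroup.mk [] : F) = 1 := rfl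
  rw [this, inv_one, map_one]; rfl

/-- parent -/
def par (v : V) : V := wv (nf v).tail

/-- the tree -/
def T : SimpleGraph V where
  Adj u v := ∃ (g : G) (s : Fin 3), s ≠ 0 ∧
    ((u = (g : V) ∧ v = ((g * inl (FreeGroup.of s) : G) : V)) ∨
      (v = (g : V) ∧ u = ((g * inl (FreeGroup.of s) : G) : V)))
  symm := ⟨by
    rintro u v ⟨g, s, hs, h⟩
    exact ⟨g, s, hs, h.symm⟩⟩
  loopless := ⟨by
    rintro u ⟨g, s, hs, h⟩
    have h1 : (g : V) = ((g * inl (FreeGroup.of s) : G) : V) := by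
      rcases h with ⟨h1, h2⟩ | ⟨h1, h2⟩
      · rw [← h1, ← h2]
      · rw [← h1, ← h2]
    rw [mk_eq_iff, inv_mul_cancel_left] at h1
    have h2 := hG_H h1
    rw [hG_inl_of hs] at h2
    exact absurd (Multiplicative.ofAdd.injective (h2.trans ofAdd_zero.symm)) one_ne_zero⟩

lemma adj_iff {u v : V} : T.Adj u v ↔ ∃ (g : G) (s : Fin 3), s ≠ 0 ∧
    ((u = (g : V) ∧ v = ((g * inl (FreeGroup.of s) : G) : V)) ∨
      (v = (g : V) ∧ u = ((g * inl (FreeGroup.of s) : G) : V))) := Iff.rfl

lemma wv_cons_adj {l : Fin 3 × Bool} (hl : isA l = false) (L : List (Fin 3 × Bool)) :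
    T.Adj (wv (l :: L)) (wv L) := by
  obtain ⟨s, b⟩ := l
  have hs : s ≠ 0 := by simpa [isA] using hl
  cases b with
  | false =>
    refine ⟨inl (FreeGroup.mk L)⁻¹, s, hs, Or.inr ⟨rfl, ?_⟩⟩
    rw [wv, mk_cons, let'_false, mul_inv_rev, inv_inv, map_mul]
  | true =>
    refine ⟨inl ((FreeGroup.mk L)⁻¹ * (FreeGroup.of s)⁻¹), s, hs, Or.inl ⟨?_, ?_⟩⟩
    · rw [wv, mk_cons, let'_true, mul_inv_rev]
    · rw [wv, ← map_mul, inv_mul_cancel_right]

lemma head_nf {v : V} {l : Fin 3 × Bool} {L : List (Fin 3 × Bool)} (h : nf v = l :: L) :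
    isA l = false := by
  obtain ⟨g, rfl⟩ := QuotientGroup.mk_surjective v
  rw [nf_mk, nfF] at h
  have h1 := List.head?_dropWhile_not isA ((g.left)⁻¹).toWord
  rw [h] at h1
  simpa using h1

lemma adj_par {v : V} (h : v ≠ o) : T.Adj v (par v) := by
  cases hv : nf v with
  | nil => exact absurd hv (nf_ne h)
  | cons l L =>
    have h1 := wv_cons_adj (head_nf hv) L
    rw [← hv, wv_nf] at h1
    rw [par, hv]
    exact h1

lemma lev_par {v : V} (h : v ≠ o) : (nf (par v)).length < (nf v).length := by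
  cases hv : nf v with
  | nil => exact absurd hv (nf_ne h)
  | cons l L =>
    rw [par, hv, wv, nf_mk, left_inl, nfF, inv_inv, FreeGroup.toWord_mk]
    have h1 : ((FreeGroup.reduce L).dropWhile isA).length ≤ (FreeGroup.reduce L).length :=
      (List.dropWhile_suffix isA).length_le
    have h2 : (FreeGroup.reduce L).length ≤ L.length := (FreeGroup.reduce.red (L := L)).length_le
    simp only [List.tail_cons, List.length_cons]
    omega

lemma adj_cases_aux (f : F) {s : Fin 3} (hs : s ≠ 0) :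
    (((inl f : G) : V) ≠ o ∧ par ((inl f : G) : V) = ((inl (f * FreeGroup.of s) : G) : V)) ∨
    (((inl (f * FreeGroup.of s) : G) : V) ≠ o ∧
      par ((inl (f * FreeGroup.of s) : G) : V) = ((inl f : G) : V)) := by
  have hne : ∀ {v : V}, nf v ≠ [] → v ≠ o := by
    intro v hv h0
    rw [h0] at hv
    exact hv nf_o
  have h1 : ((f * FreeGroup.of s)⁻¹).toWord = match (f⁻¹).toWord with
    | [] => [(s, false)]
    | hd :: tl => if s = hd.1 ∧ false = !hd.2 then tl else (s, false) :: hd :: tl := by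
    rw [mul_inv_rev, ← let'_false, tw]
  cases hf : (f⁻¹).toWord with
  | nil =>
    right
    rw [hf] at h1
    have h2 : nf ((inl (f * FreeGroup.of s) : G) : V) = [(s, false)] := by
      rw [nf_mk, left_inl, nfF, h1]
      simp [isA, hs]
    have hf1 : f = 1 := by
      have := congrArg FreeGroup.mk hf
      rw [FreeGroup.mk_toWord] at this
      exact inv_eq_one.1 this
    refine ⟨hne (by rw [h2]; simp), ?_⟩
    rw [par, h2, hf1]
    change ((inl (FreeGroup.mk [])⁻¹ : G) : V) = _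
    have : (FreeGroup.mk [] : F) = 1 := rfl
    rw [this, inv_one]
  | cons hd tl =>
    rw [hf] at h1
    simp only at h1
    split_ifs at h1 with hc
    · left
      obtain ⟨x, b⟩ := hd
      have hb : b = true := by
        have := hc.2
        cases b with
        | true => rfl
        | false => simp at this
      have hx : x = s := hc.1.symm
      subst hb hx
      have h2 : nf ((inl f : G) : V) = (x, true) :: tl := by
        rw [nf_mk, left_inl, nfF, hf]
        rw [List.dropWhile_cons_of_neg (by simp [isA, hs])]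
      refine ⟨hne (by rw [h2]; simp), ?_⟩
      rw [par, h2, List.tail_cons, wv, ← h1, FreeGroup.mk_toWord, inv_inv]
    · right
      have h2 : nf ((inl (f * FreeGroup.of s) : G) : V) = (s, false) :: hd :: tl := by
        rw [nf_mk, left_inl, nfF, h1]
        rw [List.dropWhile_cons_of_neg (by simp [isA, hs])]
      refine ⟨hne (by rw [h2]; simp), ?_⟩
      rw [par, h2, List.tail_cons, wv, ← hf, FreeGroup.mk_toWord, inv_inv]

lemma adj_cases {u v : V} (h : T.Adj u v) : (u ≠ o ∧ par u = v) ∨ (v ≠ o ∧ par v = u) := by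
  obtain ⟨g, s, hs, h⟩ := h
  have h1 := adj_cases_aux g.left hs
  rw [← mk_step, mk_left] at h1
  rcases h with ⟨rfl, rfl⟩ | ⟨rfl, rfl⟩
  · exact h1
  · exact h1.symm

theorem isTree : T.IsTree :=
  Helper270.HNN.isTree_of_parent (par := par) (o := o) (fun v => (nf v).length)
    (fun _ h => adj_par h) (fun _ h => lev_par h) (fun _ _ h => adj_cases h)

theorem adj_smul (g : G) (u v : V) (h : T.Adj u v) : T.Adj (g • u) (g • v) := by
  obtain ⟨x, s, hs, h⟩ := h
  refine ⟨g * x, s, hs, ?_⟩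
  rcases h with ⟨rfl, rfl⟩ | ⟨rfl, rfl⟩
  · exact Or.inl ⟨rfl, by rw [mul_assoc]; rfl⟩
  · exact Or.inr ⟨rfl, by rw [mul_assoc]; rfl⟩

theorem noInv (g : G) (u v : V) (h : T.Adj u v) : ¬ (g • u = v ∧ g • v = u) := by
  rintro ⟨h1, h2⟩
  obtain ⟨x, s, hs, h⟩ := h
  have key : ∀ y z : G, (y : V) = (z : V) → hG y = hG z := by
    intro y z hyz
    have := hG_H (mk_eq_iff.1 hyz)
    rw [map_mul, map_inv, inv_mul_eq_one] at this
    exact this
  rcases h with ⟨rfl, rfl⟩ | ⟨rfl, rfl⟩
  · have h3 := key (g * x) (x * inl (FreeGroup.of s)) h1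
    have h4 := key (g * (x * inl (FreeGroup.of s))) x h2
    simp only [map_mul, hG_inl_of hs] at h3 h4
    have h5 := congrArg Multiplicative.toAdd h3
    have h6 := congrArg Multiplicative.toAdd h4
    simp only [toAdd_mul, toAdd_ofAdd] at h5 h6
    omega
  · have h3 := key (g * (x * inl (FreeGroup.of s))) x h1
    have h4 := key (g * x) (x * inl (FreeGroup.of s)) h2
    simp only [map_mul, hG_inl_of hs] at h3 h4
    have h5 := congrArg Multiplicative.toAdd h3
    have h6 := congrArg Multiplicative.toAdd h4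
    simp only [toAdd_mul, toAdd_ofAdd] at h5 h6
    omega

theorem vert_orbits : ∃ S : Finset V, ∀ v : V, ∃ g : G, g • v ∈ S := by
  refine ⟨{o}, fun v => ?_⟩
  obtain ⟨g, rfl⟩ := QuotientGroup.mk_surjective v
  refine ⟨g⁻¹, ?_⟩
  rw [Finset.mem_singleton]
  change ((g⁻¹ * g : G) : V) = o
  rw [inv_mul_cancel]; rfl

open Classical in
theorem edge_orbits : ∃ E : Finset (V × V), ∀ u v : V, T.Adj u v → ∃ g : G, (g • u, g • v) ∈ E := by
  refine ⟨(Finset.univ.image fun s : Fin 3 => (o, ((inl (FreeGroup.of s) : G) : V))) ∪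
    (Finset.univ.image fun s : Fin 3 => (((inl (FreeGroup.of s) : G) : V), o)), ?_⟩
  rintro u v ⟨x, s, hs, h⟩
  refine ⟨x⁻¹, ?_⟩
  have h1 : x⁻¹ • (x : V) = o := by
    change ((x⁻¹ * x : G) : V) = o
    rw [inv_mul_cancel]; rfl
  have h2 : x⁻¹ • ((x * inl (FreeGroup.of s) : G) : V) = ((inl (FreeGroup.of s) : G) : V) := by
    change ((x⁻¹ * (x * inl (FreeGroup.of s)) : G) : V) = _
    rw [inv_mul_cancel_left]
  rcases h with ⟨rfl, rfl⟩ | ⟨rfl, rfl⟩
  · rw [h1, h2]
    exact Finset.mem_union_left _ (Finset.mem_image.2 ⟨s, Finset.mem_univ _, rfl⟩)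
  · rw [h1, h2]
    exact Finset.mem_union_right _ (Finset.mem_image.2 ⟨s, Finset.mem_univ _, rfl⟩)

lemma mem_stab {x g : G} : x ∈ MulAction.stabilizer G (g : V) ↔ g⁻¹ * x * g ∈ H := by
  rw [MulAction.mem_stabilizer_iff]
  change ((x * g : G) : V) = (g : V) ↔ _
  rw [eq_comm, mk_eq_iff, mul_assoc]

theorem vert_stab (v : V) :
    ∃ n : ℕ, Nonempty (↥(MulAction.stabilizer G v) ≃* Multiplicative (Fin n → ℤ)) := by
  refine ⟨2, ?_⟩
  obtain ⟨g, rfl⟩ := QuotientGroup.mk_surjective v
  have e1 : MulAction.stabilizer G (o : V) = H := by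
    ext x
    change x ∈ MulAction.stabilizer G ((1 : G) : V) ↔ _
    rw [mem_stab]; simp
  have h1 : ((g : G) : V) = g • o := by
    change (g : V) = ((g * 1 : G) : V)
    rw [mul_one]
  exact ⟨((MulAction.stabilizerEquivStabilizer h1).symm.trans (MulEquiv.subgroupCongr e1)).trans HEquiv⟩

theorem edge_stab (u v : V) (h : T.Adj u v) :
    IsCyclic ↥(MulAction.stabilizer G u ⊓ MulAction.stabilizer G v) := by
  have key : ∀ x : G, x ∈ MulAction.stabilizer G u ⊓ MulAction.stabilizer G v → x.right = 1 → x = 1 := by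
    intro x hx hxr
    obtain ⟨g, s, hs, h⟩ := h
    have h1 : g⁻¹ * x * g ∈ H ∧ (g * inl (FreeGroup.of s))⁻¹ * x * (g * inl (FreeGroup.of s)) ∈ H := by
      rw [Subgroup.mem_inf] at hx
      rcases h with ⟨rfl, rfl⟩ | ⟨rfl, rfl⟩
      · exact ⟨mem_stab.1 hx.1, mem_stab.1 hx.2⟩
      · exact ⟨mem_stab.1 hx.2, mem_stab.1 hx.1⟩
    obtain ⟨h1, h2⟩ := h1
    obtain ⟨i, hi⟩ := Subgroup.mem_zpowers_iff.1 (mem_H.1 h1)
    have h3 : g⁻¹ * x * g = inl (a ^ i) := by
      refine SemidirectProduct.ext ?_ ?_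
      · rw [left_inl, hi]
      · rw [mul_right, mul_right, inv_right, hxr, right_inl, mul_one, inv_mul_cancel]
    have h4 : (g * inl (FreeGroup.of s))⁻¹ * x * (g * inl (FreeGroup.of s)) =
        inl ((FreeGroup.of s)⁻¹ * a ^ i * FreeGroup.of s) := by
      rw [map_mul, map_mul, map_inv, ← h3]; group
    rw [h4, mem_H, left_inl] at h2
    obtain ⟨j, hj⟩ := Subgroup.mem_zpowers_iff.1 h2
    have h5 := conj_a hs hj.symm
    rw [h5, zpow_zero, map_one] at h3
    have : x = g * (g⁻¹ * x * g) * g⁻¹ := by group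
    rw [this, h3]; group
  let f : ↥(MulAction.stabilizer G u ⊓ MulAction.stabilizer G v) →* Multiplicative ℤ :=
    rightHom.comp (Subgroup.subtype _)
  refine isCyclic_of_injective f ?_
  rw [injective_iff_map_eq_one]
  intro x hx
  exact Subtype.ext (key x x.2 hx)

end Pool.Agent.X260.Ger
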