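import Mathlib
import Pool.Agent.X260.Ger.Tree

set_option autoImplicit false

namespace Pool.Agent.X260.Ger

open SemidirectProduct

def ia : G := inl a
def it : G := inr (Multiplicative.ofAdd 1)

lemma ia_zpow_inj {i j : ℤ} (h : ia ^ i = ia ^ j) : i = j := by
  apply a_zpow_inj
  apply inl_injective (φ := phi)
  rw [map_zpow, map_zpow]
  exact h

lemma comm_ia_it : Commute ia it := by
  change (inl a : G) * inr _ = inr _ * inl a
  refine SemidirectProduct.ext ?_ ?_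
  · simp [phi_a]
  · simp

lemma conj_it (s : Fin 3) : (inl (FreeGroup.of s) : G)⁻¹ * it * inl (FreeGroup.of s) =
    ia ^ (ex s) * it := by
  rw [mul_assoc, inv_mul_eq_iff_eq_mul]
  refine SemidirectProduct.ext ?_ ?_
  · change (it * inl (FreeGroup.of s)).left = _
    rw [mul_left, left_inl]
    have h1 : it.left = 1 := rfl
    have h2 : it.right = Multiplicative.ofAdd 1 := rfl
    rw [h1, h2, one_mul, phi_of, toAdd_ofAdd, one_mul, mul_left, left_inl, right_inl, map_one,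
      MulAut.one_apply, mul_left, h1, map_one, mul_one]
    have h3 : (ia ^ ex s : G) = inl (a ^ ex s) := by rw [map_zpow]; rfl
    rw [h3, left_inl]
  · have h3 : (ia ^ ex s : G) = inl (a ^ ex s) := by rw [map_zpow]; rfl
    rw [h3, mul_right, mul_right, mul_right, right_inl, right_inl, mul_one, one_mul, one_mul]

section Norm

variable {Γ : Type} [Group Γ] {K L : Subgroup Γ} (ρ : K →* Multiplicative ℤ)

open Classical in
/-- extension by zero -/
noncomputable def Rf (y : Γ) : ℤ := if h : y ∈ K then Multiplicative.toAdd (ρ ⟨y, h⟩) else 0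

lemma Rf_mul {y z : Γ} (hy : y ∈ K) (hz : z ∈ K) : Rf ρ (y * z) = Rf ρ y + Rf ρ z := by
  rw [Rf, Rf, Rf, dif_pos hy, dif_pos hz, dif_pos (K.mul_mem hy hz), ← toAdd_mul, ← map_mul]
  rfl

lemma Rf_inv {y : Γ} (hy : y ∈ K) : Rf ρ y⁻¹ = - Rf ρ y := by
  have h1 := Rf_mul ρ hy (K.inv_mem hy)
  rw [mul_inv_cancel] at h1
  have h2 := Rf_mul ρ K.one_mem K.one_mem
  rw [mul_one] at h2
  omega

lemma Rf_conj {y z : Γ} (hy : y ∈ K) (hz : z ∈ K) : Rf ρ (y * z * y⁻¹) = Rf ρ z := by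
  rw [Rf_mul ρ (K.mul_mem hy hz) (K.inv_mem hy), Rf_mul ρ hy hz, Rf_inv ρ hy]
  ring

lemma Rf_coset [L.Normal] (hLK : L ≤ K) {u w x : Γ} (h : (u : Γ ⧸ L) = (w : Γ ⧸ L)) (hx : x ∈ L) :
    Rf ρ (u * x * u⁻¹) = Rf ρ (w * x * w⁻¹) := by
  have hl : w⁻¹ * u ∈ L := QuotientGroup.eq.1 h.symm
  have h1 : w * (w⁻¹ * u) * w⁻¹ ∈ K := hLK (Subgroup.Normal.conj_mem inferInstance _ hl w)
  have h2 : w * x * w⁻¹ ∈ K := hLK (Subgroup.Normal.conj_mem inferInstance _ hx w)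
  have h3 := Rf_conj ρ h1 h2
  rw [← h3]
  congr 1
  group

open Classical in
/-- the invariant quadratic form -/
noncomputable def qf (L : Subgroup Γ) [L.FiniteIndex] (x : Γ) : ℤ :=
  letI := Fintype.ofFinite (Γ ⧸ L)
  ∑ c : Γ ⧸ L, (Rf ρ (c.out * x * c.out⁻¹)) ^ 2

lemma qf_conj [L.Normal] [L.FiniteIndex] (hLK : L ≤ K) {x : Γ} (hx : x ∈ L) (y : Γ) :
    qf ρ L (y⁻¹ * x * y) = qf ρ L x := by
  classical
  unfold qf
  let _ := Fintype.ofFinite (Γ ⧸ L)
  rw [← Equiv.sum_comp (Equiv.mulRight ((y⁻¹ : Γ) : Γ ⧸ L))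
    (fun d : Γ ⧸ L => (Rf ρ (d.out * x * d.out⁻¹)) ^ 2)]
  refine Finset.sum_congr rfl fun c _ => ?_
  congr 1
  have h1 : c.out * (y⁻¹ * x * y) * c.out⁻¹ = (c.out * y⁻¹) * x * (c.out * y⁻¹)⁻¹ := by group
  rw [h1]
  refine Rf_coset ρ hLK ?_ hx
  rw [Equiv.coe_mulRight, QuotientGroup.out_eq', QuotientGroup.mk_mul, QuotientGroup.out_eq']

/-- an element `A` such that `T`, `A T`, `A² T` are conjugate dies under every character -/
theorem norm_arg [L.Normal] [L.FiniteIndex] (hLK : L ≤ K) {A T y z : Γ} (hA : A ∈ L) (hT : T ∈ L)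
    (h1 : y⁻¹ * T * y = A * T) (h2 : z⁻¹ * T * z = A * (A * T)) : Rf ρ A = 0 := by
  classical
  have e1 := qf_conj ρ hLK hT y
  have e2 := qf_conj ρ hLK hT z
  rw [h1] at e1
  rw [h2] at e2
  unfold qf at e1 e2
  let _ := Fintype.ofFinite (Γ ⧸ L)
  have hc : ∀ (c : Γ) {x : Γ}, x ∈ L → c * x * c⁻¹ ∈ K := fun c x hx =>
    hLK (Subgroup.Normal.conj_mem inferInstance _ hx c)
  have k1 : ∀ c : Γ, Rf ρ (c * (A * T) * c⁻¹) = Rf ρ (c * A * c⁻¹) + Rf ρ (c * T * c⁻¹) := by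
    intro c
    rw [← Rf_mul ρ (hc c hA) (hc c hT)]
    congr 1; group
  have k2 : ∀ c : Γ, Rf ρ (c * (A * (A * T)) * c⁻¹) =
      Rf ρ (c * A * c⁻¹) + (Rf ρ (c * A * c⁻¹) + Rf ρ (c * T * c⁻¹)) := by
    intro c
    rw [← k1, ← Rf_mul ρ (hc c hA) (hc c (L.mul_mem hA hT))]
    congr 1; group
  simp only [k1] at e1
  simp only [k2] at e2
  have e3 : ∑ c : Γ ⧸ L, (Rf ρ (c.out * A * c.out⁻¹)) ^ 2 = 0 := by
    have e4 : 2 * ∑ c : Γ ⧸ L, (Rf ρ (c.out * A * c.out⁻¹)) ^ 2 =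
        ∑ c : Γ ⧸ L, (Rf ρ (c.out * A * c.out⁻¹) + (Rf ρ (c.out * A * c.out⁻¹) +
          Rf ρ (c.out * T * c.out⁻¹))) ^ 2 -
        2 * ∑ c : Γ ⧸ L, (Rf ρ (c.out * A * c.out⁻¹) + Rf ρ (c.out * T * c.out⁻¹)) ^ 2 +
        ∑ c : Γ ⧸ L, (Rf ρ (c.out * T * c.out⁻¹)) ^ 2 := by
      rw [Finset.mul_sum, Finset.mul_sum, ← Finset.sum_sub_distrib, ← Finset.sum_add_distrib]
      refine Finset.sum_congr rfl fun c _ => ?_
      ring
    rw [e1, e2] at e4
    linarith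
  have e5 := (Finset.sum_eq_zero_iff_of_nonneg (fun c _ => sq_nonneg _)).1 e3
    ((1 : Γ) : Γ ⧸ L) (Finset.mem_univ _)
  have e6 := pow_eq_zero_iff (two_ne_zero) |>.1 e5
  have e7 := Rf_coset ρ hLK (u := (((1 : Γ) : Γ ⧸ L)).out) (w := 1) (QuotientGroup.out_eq' _) hA
  rw [e7] at e6
  simpa using e6

end Norm

theorem not_vrc : ¬ ∃ K : Subgroup G, K.FiniteIndex ∧ Subgroup.zpowers ia ≤ K ∧
      ∃ r : ↥K →* G, (∀ k : ↥K, r k ∈ Subgroup.zpowers ia) ∧
        (∀ k : ↥K, (k : G) ∈ Subgroup.zpowers ia → r k = (k : G)) := by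
  rintro ⟨K, hK, hle, r, hr1, hr2⟩
  have hinj : Function.Injective (zpowersHom G ia) := by
    intro i j hij
    exact Multiplicative.toAdd.injective (ia_zpow_inj hij)
  let r' : K →* (zpowersHom G ia).range :=
    r.codRestrict (zpowersHom G ia).range (fun k => by
      rw [Subgroup.range_zpowersHom]; exact hr1 k)
  let e := MonoidHom.ofInjective hinj
  let ρ : K →* Multiplicative ℤ := e.symm.toMonoidHom.comp r'
  have hρ : ∀ (i : ℤ) (hi : ia ^ i ∈ K), ρ ⟨ia ^ i, hi⟩ = Multiplicative.ofAdd i := by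
    intro i hi
    change e.symm (r' ⟨ia ^ i, hi⟩) = _
    rw [MulEquiv.symm_apply_eq]
    apply Subtype.ext
    change r ⟨ia ^ i, hi⟩ = ia ^ i
    exact hr2 _ (Subgroup.mem_zpowers_iff.2 ⟨i, rfl⟩)
  let L := K.normalCore
  have hLn : L.Normal := Subgroup.normalCore_normal K
  have hLf : L.FiniteIndex := Subgroup.finiteIndex_normalCore K
  have hLK : L ≤ K := Subgroup.normalCore_le K
  set n := L.index with hn
  have hn0 : n ≠ 0 := hLf.index_ne_zero
  have hA : ia ^ n ∈ L := Subgroup.pow_index_mem L ia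
  have hT : it ^ n ∈ L := Subgroup.pow_index_mem L it
  have hconj : ∀ s : Fin 3, (inl (FreeGroup.of s) : G)⁻¹ * it ^ n * inl (FreeGroup.of s) =
      (ia ^ ex s) ^ n * it ^ n := by
    intro s
    have h1 : (inl (FreeGroup.of s) : G)⁻¹ * it ^ n * inl (FreeGroup.of s) =
        ((inl (FreeGroup.of s) : G)⁻¹ * it * inl (FreeGroup.of s)) ^ n := by
      have := conj_pow (i := n) (a := (inl (FreeGroup.of s) : G)⁻¹) (b := it)
      rw [inv_inv] at this
      exact this.symm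
    rw [h1, conj_it, Commute.mul_pow ((comm_ia_it).zpow_left _)]
  have h0 := norm_arg (K := K) (L := L) ρ hLK (A := ia ^ n) (T := it ^ n)
    (y := inl (FreeGroup.of 1)) (z := inl (FreeGroup.of 2)) hA hT
    (by
      rw [hconj]
      change (ia ^ (1 : ℤ)) ^ n * it ^ n = ia ^ n * it ^ n
      rw [zpow_one])
    (by
      rw [hconj, ← mul_assoc]
      congr 1
      change (ia ^ (2 : ℤ)) ^ n = ia ^ n * ia ^ n
      rw [← zpow_natCast, ← zpow_mul, ← zpow_natCast, ← zpow_add]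
      congr 1
      ring)
  rw [Rf, dif_pos (hLK hA)] at h0
  have h1 : (⟨ia ^ n, hLK hA⟩ : K) = ⟨ia ^ (n : ℤ), by rw [zpow_natCast]; exact hLK hA⟩ := by
    apply Subtype.ext
    exact (zpow_natCast ia n).symm
  rw [h1, hρ] at h0
  simp only [toAdd_ofAdd] at h0
  exact hn0 (by exact_mod_cast h0)

end Pool.Agent.X260.Ger
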